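import Pool.Agent.Y742.HC.Stm1
import Pool.Agent.Y742.GG.Inst
import Pool.Agent.W602.GT.Der

/-!
# Conics through the points of a variety with a conic fibration (helper480, project HC)
-/

set_option autoImplicit false
set_option linter.unusedSectionVars false
set_option linter.unusedVariables false
set_option linter.unusedSimpArgs false

namespace Pool.Agent.Y480.HC

open Polynomial Pool.Agent.Y742.GG Pool.Agent.Y742.HC

section grd

variable {k K : Type} [Field k] [Field K] [Algebra k K]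

/-- the jet at zero of a polynomial of weight `n` with value `r` -/
def Gr (D : Derivation k K K) (δ lam : K) (n : ℕ) (f : K[X]) (r : K) : Prop :=
  f.coeff 0 = δ ^ n * r ∧ f.coeff 1 = δ ^ n * (D r + n * lam * r)

variable {D : Derivation k K K} {δ lam : K}

lemma Gr.mul {n m : ℕ} {f g : K[X]} {r t : K} (hf : Gr D δ lam n f r) (hg : Gr D δ lam m g t) :
    Gr D δ lam (n + m) (f * g) (r * t) := by
  obtain ⟨f0, f1⟩ := hf
  obtain ⟨g0, g1⟩ := hg
  refine ⟨?_, ?_⟩
  · rw [mul_coeff_zero, f0, g0, pow_add]; ring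
  · rw [mul_coeff_one, f0, f1, g0, g1, pow_add, Derivation.leibniz]
    simp only [smul_eq_mul]
    push_cast
    ring

lemma Gr.add {n : ℕ} {f g : K[X]} {r t : K} (hf : Gr D δ lam n f r) (hg : Gr D δ lam n g t) :
    Gr D δ lam n (f + g) (r + t) := by
  obtain ⟨f0, f1⟩ := hf
  obtain ⟨g0, g1⟩ := hg
  refine ⟨?_, ?_⟩
  · rw [coeff_add, f0, g0]; ring
  · rw [coeff_add, f1, g1, map_add]; ring

lemma Gr.zero {n : ℕ} : Gr D δ lam n 0 0 := by
  refine ⟨by simp, by simp⟩

lemma Gr.const {a : K} (ha : D a = 0) : Gr D δ lam 0 (C a) a := by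
  refine ⟨by simp, ?_⟩
  rw [ha, coeff_C]
  simp

lemma Gr.one : Gr D δ lam 0 1 1 := by
  have := Gr.const (D := D) (δ := δ) (lam := lam) (a := 1) (by simp)
  simpa using this

lemma Gr.pow {f : K[X]} {r : K} (hf : Gr D δ lam 1 f r) (n : ℕ) :
    Gr D δ lam n (f ^ n) (r ^ n) := by
  induction n with
  | zero => simpa using Gr.one
  | succ n ih =>
    rw [pow_succ, pow_succ]
    exact ih.mul hf

lemma Gr.sum {ι : Type} {n : ℕ} (u : Finset ι) (f : ι → K[X]) (r : ι → K)
    (h : ∀ i ∈ u, Gr D δ lam n (f i) (r i)) : Gr D δ lam n (∑ i ∈ u, f i) (∑ i ∈ u, r i) := by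
  classical
  induction u using Finset.induction_on with
  | empty => simpa using Gr.zero
  | insert a u ha ih =>
    rw [Finset.sum_insert ha, Finset.sum_insert ha]
    exact (h a (Finset.mem_insert_self a u)).add (ih fun i hi => h i (Finset.mem_insert_of_mem hi))

end grd

section hg

variable {k K : Type} [Field k] [Field K] [Algebra k K] {L : IntermediateField k K}

/-- homogenisation -/
noncomputable def hg (S W : K[X]) (n : ℕ) (p : L[X]) : K[X] :=
  ∑ j ∈ Finset.range (n + 1), C (algebraMap L K (p.coeff j)) * (S ^ j * W ^ (n - j))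

lemma hg_gr {D : Derivation k K K} (hD : ∀ a ∈ L, D a = 0) {δ lam s : K} {S W : K[X]}
    (hS : Gr D δ lam 1 S s) (hW : Gr D δ lam 1 W 1) {n : ℕ} {p : L[X]} (hp : p.natDegree ≤ n) :
    Gr D δ lam n (hg S W n p) (aeval s p) := by
  rw [aeval_eq_sum_range' (Nat.lt_succ_of_le hp)]
  refine Gr.sum _ _ _ fun j hj => ?_
  have hj' : j ≤ n := Nat.lt_succ_iff.1 (Finset.mem_range.1 hj)
  have h1 := (Gr.const (D := D) (δ := δ) (lam := lam) (hD _ (p.coeff j).2)).mul
    ((hS.pow j).mul (hW.pow (n - j)))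
  rw [one_pow, mul_one, zero_add, Nat.add_sub_cancel' hj'] at h1
  rw [Algebra.smul_def]
  exact h1

lemma hg_rat {S W : K[X]} (hW : W ≠ 0) {n : ℕ} {p : L[X]} (hp : p.natDegree ≤ n) :
    algebraMap K[X] (RatFunc K) (hg S W n p) = algebraMap K[X] (RatFunc K) W ^ n *
      aeval (algebraMap K[X] (RatFunc K) S / algebraMap K[X] (RatFunc K) W) p := by
  have hW' : algebraMap K[X] (RatFunc K) W ≠ 0 := by
    rwa [Ne, map_eq_zero_iff _ (RatFunc.algebraMap_injective K)]
  rw [aeval_eq_sum_range' (Nat.lt_succ_of_le hp), hg, map_sum, Finset.mul_sum]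
  refine Finset.sum_congr rfl fun j hj => ?_
  have hj' : j ≤ n := Nat.lt_succ_iff.1 (Finset.mem_range.1 hj)
  have e : algebraMap K[X] (RatFunc K) W ^ n = algebraMap K[X] (RatFunc K) W ^ j *
      algebraMap K[X] (RatFunc K) W ^ (n - j) := by rw [← pow_add, Nat.add_sub_cancel' hj']
  have e2 : algebraMap K[X] (RatFunc K) (C (algebraMap L K (p.coeff j))) =
      algebraMap L (RatFunc K) (p.coeff j) := by
    rw [IsScalarTower.algebraMap_apply L K[X] (RatFunc K), Polynomial.algebraMap_apply]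
  rw [e, Algebra.smul_def, map_mul, map_mul, map_pow, map_pow, e2, div_pow]
  field_simp

end hg

lemma cq {R : Type} [CommRing R] (p q r : R) :
    (C p * X ^ 2 + C q * X + C r : R[X]).coeff 2 = p ∧
    (C p * X ^ 2 + C q * X + C r : R[X]).coeff 1 = q ∧
    (C p * X ^ 2 + C q * X + C r : R[X]).coeff 0 = r := by
  refine ⟨by simp [coeff_X, coeff_C], by simp [coeff_X, coeff_C], by simp [coeff_X, coeff_C]⟩

theorem sConA : SConA := by
  classical
  intro k K _ _ _ _ N x L hL
  obtain ⟨A, B, C₀, s, v, hA, hB, hC, hdisc, hs, hv, hgen⟩ := hL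
  have hchar : CharZero K := charZero_of_injective_algebraMap (algebraMap k K).injective
  have hcharL : CharZero L := charZero_of_injective_algebraMap (algebraMap k L).injective
  obtain ⟨Q, hQdef⟩ : ∃ Q : L[X], Q = C ⟨A, hA⟩ * X ^ 2 + C ⟨B, hB⟩ * X + C ⟨C₀, hC⟩ := ⟨_, rfl⟩
  have hQa : ∀ (M : Type) [Field M] [Algebra L M] (z : M), aeval z Q =
      algebraMap L M ⟨A, hA⟩ * z ^ 2 + algebraMap L M ⟨B, hB⟩ * z + algebraMap L M ⟨C₀, hC⟩ := by
    intro M _ _ z
    rw [hQdef]
    simp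
  have hw : v ^ 2 = aeval s Q := by
    rw [hQa K s, hv]
    rfl
  have hQ : ¬ ∃ (c : L) (R : L[X]), Q = C c * R ^ 2 := by
    rintro ⟨c, R, hR⟩
    have hq2 : Q.coeff 2 = ⟨A, hA⟩ := by rw [hQdef]; simp [coeff_X, coeff_C]
    have hq1 : Q.coeff 1 = ⟨B, hB⟩ := by rw [hQdef]; simp [coeff_X, coeff_C]
    have hq0 : Q.coeff 0 = ⟨C₀, hC⟩ := by rw [hQdef]; simp [coeff_X, coeff_C]
    by_cases hc : c = 0
    · rw [hc, C_0, zero_mul] at hR
      rw [hR] at hq2 hq1 hq0
      rw [coeff_zero] at hq2 hq1 hq0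
      have a0 : A = 0 := (congrArg Subtype.val hq2).symm
      have b0 : B = 0 := (congrArg Subtype.val hq1).symm
      apply hdisc
      rw [a0, b0]; ring
    · have hdeg : Q.natDegree ≤ 2 := by
        rw [hQdef]
        compute_degree
      have hR1 : R.natDegree ≤ 1 := by
        have h1 : Q.natDegree = 2 * R.natDegree := by
          rw [hR, natDegree_C_mul hc, natDegree_pow]
        omega
      obtain ⟨r1, r0, hr⟩ := exists_eq_X_add_C_of_natDegree_le_one hR1
      have h2 : Q = C (c * r1 ^ 2) * X ^ 2 + C (2 * c * r1 * r0) * X + C (c * r0 ^ 2) := by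
        rw [hR, hr]
        simp only [map_mul, map_pow, map_ofNat]
        ring
      have e2 : Q.coeff 2 = c * r1 ^ 2 := by rw [h2]; exact (cq _ _ _).1
      have e1 : Q.coeff 1 = 2 * c * r1 * r0 := by rw [h2]; exact (cq _ _ _).2.1
      have e0 : Q.coeff 0 = c * r0 ^ 2 := by rw [h2]; exact (cq _ _ _).2.2
      have f2 : A = c * r1 ^ 2 := by have := congrArg Subtype.val (hq2.symm.trans e2); exact this
      have f1 : B = 2 * c * r1 * r0 := by
        have := congrArg Subtype.val (hq1.symm.trans e1); exact this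
      have f0 : C₀ = c * r0 ^ 2 := by have := congrArg Subtype.val (hq0.symm.trans e0); exact this
      apply hdisc
      rw [f2, f1, f0]; ring
  have hgen' : IntermediateField.adjoin L {s, v} = ⊤ := by
    have h1 : (⊤ : IntermediateField k K) ≤
        (IntermediateField.adjoin L ({s, v} : Set K)).restrictScalars k := by
      rw [← hgen, IntermediateField.adjoin_le_iff]
      rintro z (hz | hz)
      · exact (IntermediateField.adjoin L ({s, v} : Set K)).algebraMap_mem ⟨z, hz⟩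
      · exact IntermediateField.subset_adjoin L _ hz
    rw [eq_top_iff]
    intro z _
    exact h1 (show z ∈ (⊤ : IntermediateField k K) from trivial)
  have hv0 : v ≠ 0 := w_ne_zero hs hw hQ
  -- the derivation
  have htb : IsTranscendenceBasis L (fun _ : Unit => s) := by
    rw [isTranscendenceBasis_iff_algebraicIndependent_isAlgebraic]
    refine ⟨(algebraicIndependent_unique_type_iff).2 hs, ⟨fun f => ?_⟩⟩
    obtain ⟨a, a', b, hb, h1⟩ := rep hs hw hQ hgen' f
    have hb0 : aeval s b ≠ 0 := fun h => hb (transcendental_iff.1 hs _ h)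
    have hmem : ∀ p : L[X], aeval s p ∈ Algebra.adjoin L (Set.range fun _ : Unit => s) := by
      intro p
      have : Set.range (fun _ : Unit => s) = {s} := by ext z; simp [eq_comm]
      rw [this, Algebra.adjoin_singleton_eq_range_aeval]
      exact ⟨p, rfl⟩
    refine ⟨C ⟨aeval s b, hmem b⟩ ^ 2 * X ^ 2 - C (2 * ⟨aeval s a, hmem a⟩ * ⟨aeval s b, hmem b⟩) * X +
      C (⟨aeval s a, hmem a⟩ ^ 2 - ⟨aeval s a', hmem a'⟩ ^ 2 * ⟨aeval s Q, hmem Q⟩), ?_, ?_⟩
    · intro h0
      have h2 := congrArg (fun p => p.coeff 2) h0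
      rw [← C_pow] at h2
      simp [coeff_X, coeff_C] at h2
      exact hb0 ((pow_eq_zero_iff two_ne_zero).1 (congrArg Subtype.val h2))
    · simp only [map_add, map_sub, map_mul, map_pow, aeval_C, aeval_X, map_ofNat]
      change aeval s b ^ 2 * f ^ 2 - 2 * aeval s a * aeval s b * f +
        (aeval s a ^ 2 - aeval s a' ^ 2 * aeval s Q) = 0
      rw [← hw]
      linear_combination (f * aeval s b - aeval s a + aeval s a' * v) * h1
  obtain ⟨E₁, hE₁⟩ := Pool.Agent.W602.GT.exists_der (L := L) (K := K) (fun _ : Unit => s) htb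
    (fun _ => 1)
  have hE₁s : E₁ s = 1 := hE₁ ()
  obtain ⟨E₀, hE₀⟩ : ∃ E₀ : Derivation k K K, ∀ z, E₀ z = E₁ z :=
    ⟨E₁.restrictScalars k, fun z => rfl⟩
  have hE₀L : ∀ a ∈ L, E₀ a = 0 := fun a ha => by
    rw [hE₀]
    exact E₁.map_algebraMap (⟨a, ha⟩ : L)
  have hE₀s : E₀ s = 1 := by rw [hE₀, hE₁s]
  obtain ⟨u, hu⟩ : ∃ u : K, u = (2 * A * s + B) / (2 * v) := ⟨_, rfl⟩
  obtain ⟨δ, hδ⟩ : ∃ δ : K, δ = u ^ 2 - A := ⟨_, rfl⟩
  have hu' : 2 * v * u = 2 * A * s + B := by rw [hu]; field_simp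
  have hδ' : 4 * v ^ 2 * δ = B ^ 2 - 4 * A * C₀ := by
    rw [hδ]
    linear_combination (2 * v * u + 2 * A * s + B) * hu' - 4 * A * hv
  have hδ0 : δ ≠ 0 := by
    intro h
    rw [h, mul_zero] at hδ'
    exact hdisc hδ'.symm
  obtain ⟨D, hDdef⟩ : ∃ D : Derivation k K K, D = (-2 * v / δ) • E₀ := ⟨_, rfl⟩
  have hDL : ∀ a ∈ L, D a = 0 := fun a ha => by
    rw [hDdef, Derivation.smul_apply, hE₀L a ha, smul_zero]
  have hDs : D s = -2 * v / δ := by
    rw [hDdef, Derivation.smul_apply, hE₀s, smul_eq_mul, mul_one]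
  have hDs0 : D s ≠ 0 := by
    rw [hDs]
    exact div_ne_zero (mul_ne_zero (neg_ne_zero.2 two_ne_zero) hv0) hδ0
  have hDv : D v = u * D s := by
    have h1 := der_w hw D hDL
    have h2 : aeval s (derivative Q) = 2 * A * s + B := by
      rw [hQdef]
      simp
      ring
    rw [h2, ← hu'] at h1
    have h3 : (2 * v) ≠ 0 := mul_ne_zero two_ne_zero hv0
    apply mul_left_cancel₀ h3
    linear_combination h1
  refine ⟨D, hDL, fun E hE => ⟨E s / D s, ?_⟩, ?_⟩
  · have h1 : E - (E s / D s) • D = 0 := by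
      refine der_zero hs hw hQ hgen' _ (fun a ha => ?_) ?_
      · rw [Derivation.sub_apply, Derivation.smul_apply, hE a ha, hDL a ha, smul_zero, sub_zero]
      · rw [Derivation.sub_apply, Derivation.smul_apply, smul_eq_mul, div_mul_cancel₀ _ hDs0,
          sub_self]
    exact sub_eq_zero.1 h1
  -- a common denominator
  choose a a' b hb hrep using fun l => rep hs hw hQ hgen' (x l)
  obtain ⟨Bp, hBp⟩ : ∃ Bp : L[X], Bp = ∏ l, b l := ⟨_, rfl⟩
  have hB0 : Bp ≠ 0 := by rw [hBp]; exact Finset.prod_ne_zero_iff.2 fun l _ => hb l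
  have hBt : aeval s Bp ≠ 0 := fun h => hB0 (transcendental_iff.1 hs _ h)
  obtain ⟨A₁, hA₁⟩ : ∃ A₁ : Fin N → L[X], ∀ l, A₁ l = a l * ∏ j ∈ Finset.univ.erase l, b j :=
    ⟨_, fun _ => rfl⟩
  obtain ⟨A₂, hA₂⟩ : ∃ A₂ : Fin N → L[X], ∀ l, A₂ l = a' l * ∏ j ∈ Finset.univ.erase l, b j :=
    ⟨_, fun _ => rfl⟩
  have hx : ∀ l, aeval s (A₁ l) + aeval s (A₂ l) * v = x l * aeval s Bp := by
    intro l
    rw [hBp, ← Finset.mul_prod_erase _ _ (Finset.mem_univ l), hA₁, hA₂]
    simp only [map_mul]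
    linear_combination (-aeval s (∏ j ∈ Finset.univ.erase l, b j)) * hrep l
  -- degrees
  obtain ⟨n, hn, hn1, hn2⟩ : ∃ n : ℕ, Bp.natDegree ≤ n ∧ (∀ l, (A₁ l).natDegree ≤ n) ∧
      ∀ l, (A₂ l).natDegree ≤ n := by
    refine ⟨Bp.natDegree + ∑ l, (A₁ l).natDegree + ∑ l, (A₂ l).natDegree, by omega,
      fun l => ?_, fun l => ?_⟩
    · have := Finset.single_le_sum (f := fun l => (A₁ l).natDegree) (fun _ _ => Nat.zero_le _)
        (Finset.mem_univ l)
      omega
    · have := Finset.single_le_sum (f := fun l => (A₂ l).natDegree) (fun _ _ => Nat.zero_le _)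
        (Finset.mem_univ l)
      omega
  obtain ⟨lam, hlam⟩ : ∃ lam : K, lam = 2 * u / δ := ⟨_, rfl⟩
  obtain ⟨W, hW⟩ : ∃ W : K[X], W = X ^ 2 + C (2 * u) * X + C δ := ⟨_, rfl⟩
  obtain ⟨S, hS⟩ : ∃ S : K[X], S = C s * W - C (2 * v) * X := ⟨_, rfl⟩
  obtain ⟨V, hV⟩ : ∃ V : K[X], V = C v * (C δ - X ^ 2) := ⟨_, rfl⟩
  have w0 : W.coeff 0 = δ := by rw [hW]; simp [coeff_X, coeff_C]
  have w1 : W.coeff 1 = 2 * u := by rw [hW]; simp [coeff_X, coeff_C]
  have gW : Gr D δ lam 1 W 1 := by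
    refine ⟨by rw [w0]; ring, ?_⟩
    rw [w1, hlam, Derivation.map_one_eq_zero]
    push_cast
    field_simp
    ring
  have gS : Gr D δ lam 1 S s := by
    refine ⟨?_, ?_⟩
    · rw [hS, coeff_sub, coeff_C_mul, w0, coeff_C_mul, coeff_X_zero]; ring
    · rw [hS, coeff_sub, coeff_C_mul, w1, coeff_C_mul, coeff_X_one, hlam, hDs]
      push_cast
      field_simp
      ring
  have gV : Gr D δ lam 1 V v := by
    refine ⟨?_, ?_⟩
    · rw [hV, coeff_C_mul, coeff_sub]; simp [coeff_C]; ring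
    · have h1 : (C δ - X ^ 2 : K[X]).coeff 1 = 0 := by simp [coeff_C]
      rw [hV, coeff_C_mul, h1, hDv, hDs, hlam]
      push_cast
      field_simp
      ring
  have hW0 : W ≠ 0 := fun h => hδ0 (by rw [← w0, h, coeff_zero])
  have hcurve : V ^ 2 = C A * S ^ 2 + C B * S * W + C C₀ * W ^ 2 := by
    have c2 : (C (2 : K) : K[X]) = 2 := map_ofNat C 2
    have e1 : (C v : K[X]) ^ 2 = C A * C s ^ 2 + C B * C s + C C₀ := by
      rw [← C_pow, hv]; simp
    have e2 : 2 * C v * (C u : K[X]) = 2 * C A * C s + C B := by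
      have := congrArg (C : K → K[X]) hu'
      simpa [c2] using this
    have e3 : (C δ : K[X]) = C u ^ 2 - C A := by rw [hδ]; simp
    have e4 : (C (2 * u) : K[X]) = 2 * C u := by rw [C_mul, c2]
    have e5 : (C (2 * v) : K[X]) = 2 * C v := by rw [C_mul, c2]
    rw [hV, hS, hW, e3, e4, e5]
    linear_combination (X ^ 2 + 2 * C u * X + (C u ^ 2 - C A)) ^ 2 * e1 -
      2 * C v * X * (X ^ 2 + 2 * C u * X + (C u ^ 2 - C A)) * e2
  have gdn : Gr D δ lam (n + 1) (hg S W n Bp * W) (aeval s Bp * 1) :=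
    (hg_gr hDL gS gW hn).mul gW
  have gnm : ∀ l, Gr D δ lam (n + 1) (hg S W n (A₁ l) * W + hg S W n (A₂ l) * V)
      (aeval s (A₁ l) * 1 + aeval s (A₂ l) * v) := fun l =>
    ((hg_gr hDL gS gW (hn1 l)).mul gW).add ((hg_gr hDL gS gW (hn2 l)).mul gV)
  have hdn0 : (hg S W n Bp * W).coeff 0 ≠ 0 := by
    rw [gdn.1, mul_one]
    exact mul_ne_zero (pow_ne_zero _ hδ0) hBt
  refine ⟨fun l => hg S W n (A₁ l) * W + hg S W n (A₂ l) * V, hg S W n Bp * W, hdn0, ?_, ?_, ?_⟩
  · intro l
    rw [(gnm l).1, gdn.1, mul_one, mul_one, hx]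
    ring
  · intro P hP
    obtain ⟨ι, hι⟩ : ∃ ι : K[X] →+* RatFunc K, ι = algebraMap K[X] (RatFunc K) := ⟨_, rfl⟩
    obtain ⟨s', hs'⟩ : ∃ s' : RatFunc K, s' = algebraMap K[X] (RatFunc K) S /
      algebraMap K[X] (RatFunc K) W := ⟨_, rfl⟩
    obtain ⟨v', hv'⟩ : ∃ v' : RatFunc K, v' = algebraMap K[X] (RatFunc K) V /
      algebraMap K[X] (RatFunc K) W := ⟨_, rfl⟩
    have hWr : algebraMap K[X] (RatFunc K) W ≠ 0 := by
      rwa [Ne, map_eq_zero_iff _ (RatFunc.algebraMap_injective K)]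
    have hLr : ∀ c : L, algebraMap L (RatFunc K) c =
        algebraMap K[X] (RatFunc K) (C (algebraMap L K c)) := fun c => by
      rw [IsScalarTower.algebraMap_apply L K[X] (RatFunc K), Polynomial.algebraMap_apply]
    have hw' : v' ^ 2 = aeval s' Q := by
      rw [hQa (RatFunc K) s', hLr, hLr, hLr, hs', hv']
      change _ = algebraMap K[X] (RatFunc K) (C A) * _ + algebraMap K[X] (RatFunc K) (C B) * _ +
        algebraMap K[X] (RatFunc K) (C C₀)
      have h1 := congrArg (algebraMap K[X] (RatFunc K)) hcurve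
      simp only [map_add, map_mul, map_pow] at h1
      rw [div_pow, div_pow, h1]
      field_simp
    have hdr : algebraMap K[X] (RatFunc K) (hg S W n Bp * W) =
        algebraMap K[X] (RatFunc K) W ^ (n + 1) * aeval s' Bp := by
      rw [map_mul, hg_rat hW0 hn, ← hs']; ring
    have hnr : ∀ l, algebraMap K[X] (RatFunc K) (hg S W n (A₁ l) * W + hg S W n (A₂ l) * V) =
        algebraMap K[X] (RatFunc K) W ^ (n + 1) * (aeval s' (A₁ l) + aeval s' (A₂ l) * v') := by
      intro l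
      rw [map_add, map_mul, map_mul, hg_rat hW0 (hn1 l), hg_rat hW0 (hn2 l), ← hs', hv']
      field_simp
      ring
    have hdne : algebraMap K[X] (RatFunc K) (hg S W n Bp * W) ≠ 0 := by
      rw [Ne, map_eq_zero_iff _ (RatFunc.algebraMap_injective K)]
      intro h
      exact hdn0 (by rw [h, coeff_zero])
    have hBs' : aeval s' Bp ≠ 0 := by
      intro h
      rw [hdr, h, mul_zero] at hdne
      exact hdne rfl
    obtain ⟨x', hx'⟩ : ∃ x' : Fin N → RatFunc K, x' = fun l =>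
      algebraMap K[X] (RatFunc K) (hg S W n (A₁ l) * W + hg S W n (A₂ l) * V) /
      algebraMap K[X] (RatFunc K) (hg S W n Bp * W) := ⟨_, rfl⟩
    have hx'' : ∀ l, aeval s' (A₁ l) + aeval s' (A₂ l) * v' = x' l * aeval s' Bp := by
      intro l
      rw [hx']
      simp only
      rw [hnr, hdr]
      field_simp
    change MvPolynomial.aeval (fun l =>
      algebraMap K[X] (RatFunc K) (hg S W n (A₁ l) * W + hg S W n (A₂ l) * V) /
      algebraMap K[X] (RatFunc K) (hg S W n Bp * W)) P = 0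
    rw [← hx']
    -- the polynomial over `L`
    obtain ⟨P', hP'⟩ : ∃ P' : L[X][X], P' =
      hm ((C : L[X] →+* L[X][X]).comp ((C : L →+* L[X]).comp (algebraMap k L))) P
        (fun l => C (A₁ l) + C (A₂ l) * X) (C Bp) := ⟨_, rfl⟩
    have hdvd : (X ^ 2 - C Q) ∣ P' := by
      apply dvd_of_zero hs hw hQ
      have h1 := hm_map (eval₂RingHom ((aeval s : L[X] →ₐ[L] K) : L[X] →+* K) v)
        ((C : L[X] →+* L[X][X]).comp ((C : L →+* L[X]).comp (algebraMap k L))) P
        (fun l => C (A₁ l) + C (A₂ l) * X) (C Bp)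
      rw [← hP', coe_eval₂RingHom] at h1
      rw [h1, hm_eq (y := x), mul_eq_zero]
      · right
        have e : (eval₂RingHom ((aeval s : L[X] →ₐ[L] K) : L[X] →+* K) v).comp
            ((C : L[X] →+* L[X][X]).comp ((C : L →+* L[X]).comp (algebraMap k L))) =
            algebraMap k K := by
          ext z
          simp
        rw [e]
        exact hP
      · intro l
        simp only [eval₂_add, eval₂_mul, eval₂_C, eval₂_X]
        exact hx l
    obtain ⟨R, hR⟩ := hdvd
    have h1 := hm_map (eval₂RingHom ((aeval s' : L[X] →ₐ[L] RatFunc K) : L[X] →+* RatFunc K) v')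
      ((C : L[X] →+* L[X][X]).comp ((C : L →+* L[X]).comp (algebraMap k L))) P
      (fun l => C (A₁ l) + C (A₂ l) * X) (C Bp)
    rw [← hP', coe_eval₂RingHom, hm_eq (y := x')] at h1
    · have h2 : P'.eval₂ ((aeval s' : L[X] →ₐ[L] RatFunc K) : L[X] →+* RatFunc K) v' = 0 := by
        rw [hR, eval₂_mul, eval₂_sub, eval₂_pow, eval₂_X, eval₂_C]
        have : ((aeval s' : L[X] →ₐ[L] RatFunc K) : L[X] →+* RatFunc K) Q = aeval s' Q := rfl
        rw [this, ← hw', sub_self, zero_mul]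
      rw [h2] at h1
      have e : (eval₂RingHom ((aeval s' : L[X] →ₐ[L] RatFunc K) : L[X] →+* RatFunc K) v').comp
          ((C : L[X] →+* L[X][X]).comp ((C : L →+* L[X]).comp (algebraMap k L))) =
          algebraMap k (RatFunc K) := by
        ext z
        simp only [RingHom.comp_apply, coe_eval₂RingHom, eval₂_C]
        change aeval s' (C (algebraMap k L z)) = _
        rw [aeval_C, hLr, IsScalarTower.algebraMap_apply k K[X] (RatFunc K)]
        rfl
      rw [e] at h1
      rcases mul_eq_zero.1 h1.symm with h3 | h3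
      · exfalso
        exact pow_ne_zero _ (by rw [eval₂_C]; exact hBs') h3
      · exact h3
    · intro l
      simp only [eval₂_add, eval₂_mul, eval₂_C, eval₂_X]
      exact hx'' l
  · intro l
    rw [(gnm l).2, gdn.2, gdn.1, mul_one, mul_one, hx, Derivation.leibniz]
    simp only [smul_eq_mul]
    ring

end Pool.Agent.Y480.HC
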